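import Pool.Agent.N848.SK.Stm
import Pool.Agent.N848.AW.XT

/-!
# Project SK (helper848), SK-IFF: linear algebra over `ZMod 2`

`E1` and `E2` hold if and only if one of the two systems of project AW has only the constant
solutions. Let `v = t + g + h` and let `A1` be the matrix of the first system, so that the transpose
of the second system has the matrix `A1 + v tᵀ`. If `E1`, `E2` hold and `z` is a solution of
`A1 z = v (t z)`: either `t z = 0` and `z` is constant by `E1`, or `A1 z = v`, every `y` in the kernel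
of the transpose of `A1` is orthogonal to `v`, hence constant by `E2`.
-/

set_option autoImplicit false
set_option linter.unusedVariables false
set_option linter.unusedSectionVars false

open scoped Classical

namespace Pool.Agent.N413.SK.IFF

open Finset
open Pool.Agent.N848.AW
open Pool.Agent.N848.SK
open Pool.Agent.N848.AW.XT
open Pool.Agent.N615.AW.BOX (GA_tr GB_tr Lp_tr dt_tr Cst_tr lift_ex)

section sys

variable {W : Type} [Fintype W] {A : W → W → ZMod 2} {t g h : W → ZMod 2}

lemma e1_iff : E1 W univ A t g h ↔ ∀ x : W → ZMod 2, dt univ t x = 0 →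
    (∀ p, Lp univ A x p = 0) → Kst x := by
  unfold E1
  constructor
  · intro k x h0 hx
    exact (cst_iff x).1 (k x h0 fun p _ => hx p)
  · intro k x h0 hx
    exact (cst_iff x).2 (k x h0 fun p => hx p (mem_univ p))

lemma e2_iff : E2 W univ A t g h ↔ ∀ x : W → ZMod 2,
    dt univ t x + dt univ g x + dt univ h x = 0 → RAt A t g x = 0 → Kst x := by
  unfold E2
  constructor
  · intro k x h0 hx
    exact (cst_iff x).1 (k x h0 fun p _ => congrFun hx p)
  · intro k x h0 hx
    exact (cst_iff x).2 (k x h0 (funext fun p => hx p (mem_univ p)))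

lemma tr_At (H : Hyp (univ : Finset W) A t g h) (k : GAt univ A t g) : GA univ A t g := by
  have := ne H
  rw [gat_iff] at k
  rw [ga_iff]
  exact trn (fun x y => (adjA H y x).symm) (RA_one H) k

theorem iff_univ (H : Hyp (univ : Finset W) A t g h) :
    E3 W univ A t g h ↔ EU W univ A t g h := by
  show (E1 W univ A t g h ∧ E2 W univ A t g h) ↔ (GA univ A t g ∨ GB univ A t h)
  constructor
  · rintro ⟨h1, h2⟩
    rw [e1_iff] at h1
    rw [e2_iff] at h2
    by_cases hA : GA univ A t g
    · exact Or.inl hA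
    refine Or.inr (tr_Bt H ?_)
    rw [gbt_iff]
    intro z hz
    have hz' : ∀ p, RA A t g z p + (t p + g p + h p) * dt univ t z = 0 := fun p => by
      rw [← rbt_eq H]
      exact congrFun hz p
    rcases z2 (dt univ t z) with h0 | h0
    · refine h1 z h0 fun p => ?_
      have h3 : Lp univ A z p + g p * dt univ t z + (t p + g p + h p) * dt univ t z = 0 := hz' p
      rw [h0, mul_zero, mul_zero, add_zero, add_zero] at h3
      exact h3
    · exfalso
      refine hA (tr_At H ?_)
      rw [gat_iff]
      intro y hy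
      refine h2 y ?_ hy
      have h4 := adjA H z y
      rw [hy] at h4
      have h5 : ∑ p, y p * RA A t g z p = dt univ t y + dt univ g y + dt univ h y := by
        unfold dt
        rw [← Finset.sum_add_distrib, ← Finset.sum_add_distrib]
        refine Finset.sum_congr rfl fun p _ => ?_
        have h6 := hz' p
        rw [h0, mul_one] at h6
        rw [eq_of_add h6]
        ring
      rw [← h5, h4]
      simp
  · rintro (hA | hB)
    · have k := ga_iff.1 hA
      have kt := gat_iff.1 (tr_A H hA)
      refine ⟨e1_iff.2 fun x h0 hx => ?_, e2_iff.2 fun x _ hx => kt x hx⟩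
      refine k x (funext fun p => ?_)
      show Lp univ A x p + g p * dt univ t x = 0
      rw [h0, hx p, mul_zero, add_zero]
    · have k := gb_iff.1 hB
      have kt := gbt_iff.1 (tr_B H hB)
      refine ⟨e1_iff.2 fun x h0 hx => ?_, e2_iff.2 fun x h0 hx => ?_⟩
      · refine kt x (funext fun p => ?_)
        show Lp univ A x p + t p * dt univ t x + h p * dt univ t x = 0
        rw [h0, hx p, mul_zero, mul_zero, add_zero, add_zero]
      · refine k x (funext fun p => ?_)
        have h3 : Lp univ A x p + t p * dt univ t x + t p * x p + t p * dt univ g x = 0 :=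
          congrFun hx p
        show Lp univ A x p + t p * x p + t p * dt univ h x = 0
        have h4 : dt univ h x = dt univ t x + dt univ g x := (eq_of_add h0).symm
        rw [h4]
        linear_combination h3

end sys

section tr

variable {V W : Type} [Fintype W] {S : Finset V} {φ : W → V} {A : V → V → ZMod 2}
  {M : W → W → ZMod 2}

theorem E1_tr (hφ : Function.Injective φ) (hS : ∀ x, x ∈ S ↔ ∃ w, φ w = x)
    (hM : ∀ v w, v ≠ w → M v w = A (φ v) (φ w)) (t g h : V → ZMod 2) :
    E1 V S A t g h ↔ E1 W univ M (fun w => t (φ w)) (fun w => g (φ w)) (fun w => h (φ w)) := by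
  constructor
  · intro k y h0 hy
    obtain ⟨x, rfl⟩ := lift_ex hφ y
    rw [← Cst_tr hS]
    rw [← dt_tr hφ hS] at h0
    refine k x h0 fun p hp => ?_
    rw [hS] at hp
    obtain ⟨w, rfl⟩ := hp
    rw [Lp_tr hφ hS hM]
    exact hy w (Finset.mem_univ _)
  · intro k x h0 hx
    rw [Cst_tr hS]
    rw [dt_tr hφ hS] at h0
    refine k _ h0 fun w _ => ?_
    have h1 := hx (φ w) ((hS _).2 ⟨w, rfl⟩)
    rw [Lp_tr hφ hS hM] at h1
    exact h1

theorem E2_tr (hφ : Function.Injective φ) (hS : ∀ x, x ∈ S ↔ ∃ w, φ w = x)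
    (hM : ∀ v w, v ≠ w → M v w = A (φ v) (φ w)) (t g h : V → ZMod 2) :
    E2 V S A t g h ↔ E2 W univ M (fun w => t (φ w)) (fun w => g (φ w)) (fun w => h (φ w)) := by
  constructor
  · intro k y h0 hy
    obtain ⟨x, rfl⟩ := lift_ex hφ y
    rw [← Cst_tr hS]
    rw [← dt_tr hφ hS, ← dt_tr hφ hS, ← dt_tr hφ hS] at h0
    refine k x h0 fun p hp => ?_
    rw [hS] at hp
    obtain ⟨w, rfl⟩ := hp
    rw [Lp_tr hφ hS hM, dt_tr hφ hS, dt_tr hφ hS]
    exact hy w (Finset.mem_univ _)
  · intro k x h0 hx
    rw [Cst_tr hS]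
    rw [dt_tr hφ hS, dt_tr hφ hS, dt_tr hφ hS] at h0
    refine k _ h0 fun w _ => ?_
    have h1 := hx (φ w) ((hS _).2 ⟨w, rfl⟩)
    rw [Lp_tr hφ hS hM, dt_tr hφ hS, dt_tr hφ hS] at h1
    exact h1

end tr

/-- **SK-TRE.** -/
theorem t_TRE : S_TRE :=
  ⟨fun V W _ S φ A M t g h hφ hS hM => E1_tr hφ hS hM t g h,
    fun V W _ S φ A M t g h hφ hS hM => E2_tr hφ hS hM t g h⟩

/-- **SK-IFF.** -/
theorem t_IFF : S_IFF := by
  intro V S A t g h H
  have hi : Function.Injective (Subtype.val : S → V) := Subtype.val_injective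
  have hM : ∀ v w : S, v ≠ w → (fun v w : S => A v w) v w = A v w := fun _ _ _ => rfl
  show (E1 V S A t g h ∧ E2 V S A t g h) ↔ (GA S A t g ∨ GB S A t h)
  rw [E1_tr hi (sub_mem S) hM, E2_tr hi (sub_mem S) hM, GA_tr hi (sub_mem S) hM,
    GB_tr hi (sub_mem S) hM]
  exact iff_univ (hyp_tr H)

end Pool.Agent.N413.SK.IFF
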